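import Pool.Agent.H14R3.Aug.Stmts

/-! Task TaskDim of the project AUG (helper265). -/

set_option autoImplicit false

open scoped ENNReal InnerProductSpace

namespace Pool.Agent.H14R3.Aug

theorem TaskDim_proof : TaskDim := by
  intro hTr hRes hInj Γ _ n k hkn T hT
  classical
  by_contra hcon
  push Not at hcon
  have hinj : ∀ v, T v = 0 → v = 0 := by
    intro v hv
    by_contra hv0
    exact hcon v hv0 hv
  obtain ⟨Ts, _, _, hadj, hTs, -⟩ := hRes Γ n k T hT 1 one_pos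
  have hne : Nonempty (Fin n) := ⟨⟨0, by omega⟩⟩
  have hc : (0 : ℝ) < 1 / (2 * (n + 1)) := by positivity
  choose ε0 hε0 hε0' using fun l : Fin n => hInj (Fin n × Γ) (Fin k × Γ) T Ts hadj hinj
    (lp.single 2 (l, (1 : Γ)) 1) (1 / (2 * (n + 1))) hc
  obtain ⟨l0, hl0⟩ := Finite.exists_min ε0
  set ε := ε0 l0 with hε
  have hεpos : 0 < ε := hε0 l0
  obtain ⟨Ts', A, B, hadj', hTs', hA, hB, hA1, hA2, hB1, hB2⟩ := hRes Γ n k T hT ε hεpos
  have hTsTs : Ts' = Ts := by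
    ext1 u
    refine ext_inner_right ℂ fun v => ?_
    rw [hadj', hadj]
  subst hTsTs
  -- the operator U
  have hU : Equivariant (A.comp Ts') := by
    intro h f f' hf j g
    exact hA h (Ts' f) (Ts' f') (fun i g => hTs' h f f' hf i g) j g
  have hATs : ∀ v, A (Ts' v) = Ts' (B v) := by
    intro v
    have h1 : A (Ts' v) = A (Ts' (T (Ts' (B v)))) + (ε : ℂ) • A (Ts' (B v)) := by
      conv_lhs => rw [← hB1 v]
      rw [map_add, map_add, map_smul, map_smul]
    rw [h1, hA2]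
  have hUT : ∀ v, (A.comp Ts') (T v) = v - (ε : ℂ) • A v := fun v => by
    rw [ContinuousLinearMap.comp_apply, eq_sub_iff_add_eq, hA2]
  have hTU : ∀ v, T ((A.comp Ts') v) = v - (ε : ℂ) • B v := fun v => by
    rw [ContinuousLinearMap.comp_apply, hATs, eq_sub_iff_add_eq, hB1]
  have htr := hTr Γ n k T (A.comp Ts') hT hU
  simp only [hUT, hTU] at htr
  have e1 : ∀ (m : ℕ) (C : H (Fin m × Γ) →L[ℂ] H (Fin m × Γ)) (l : Fin m),
      ((lp.single 2 (l, (1 : Γ)) 1 : H (Fin m × Γ)) - (ε : ℂ) • C (lp.single 2 (l, (1 : Γ)) 1))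
        (l, 1) = 1 - (ε : ℂ) * (C (lp.single 2 (l, (1 : Γ)) 1)) (l, 1) := by
    intro m C l
    rw [lp.coeFn_sub, lp.coeFn_smul, Pi.sub_apply, Pi.smul_apply, smul_eq_mul,
      lp.single_apply_self]
  simp only [e1, Finset.sum_sub_distrib, Finset.sum_const, Finset.card_univ, Fintype.card_fin,
    nsmul_eq_mul, mul_one] at htr
  have hre := congrArg Complex.re htr
  simp only [Complex.sub_re, Complex.natCast_re, Complex.re_sum, Complex.re_ofReal_mul] at hre
  have hBpos : ∀ i : Fin k, 0 ≤ ((B (lp.single 2 (i, (1 : Γ)) 1)) (i, 1)).re := by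
    intro i
    set w := B (lp.single 2 (i, (1 : Γ)) 1) with hw
    have h1 : w (i, 1) = ⟪(lp.single 2 (i, (1 : Γ)) 1 : H (Fin k × Γ)), w⟫_ℂ := by
      rw [lp.inner_single_left]
      simp
    rw [h1, ← hB1 (lp.single 2 (i, (1 : Γ)) 1), ← hw, inner_add_left, inner_smul_left,
      Complex.add_re, Complex.conj_ofReal, Complex.re_ofReal_mul]
    have h2 : (⟪T (Ts' w), w⟫_ℂ).re = ‖Ts' w‖ ^ 2 := by
      have := inner_re_symm (𝕜 := ℂ) (T (Ts' w)) w
      rw [← hadj'] at this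
      rw [← inner_self_eq_norm_sq (𝕜 := ℂ)]
      exact this
    have h3 : (⟪w, w⟫_ℂ).re = ‖w‖ ^ 2 := by
      rw [← inner_self_eq_norm_sq (𝕜 := ℂ)]
      rfl
    rw [h2, h3]
    positivity
  have hAle : ∀ l : Fin n, ε * ((A (lp.single 2 (l, (1 : Γ)) 1)) (l, 1)).re ≤
      1 / (2 * (n + 1)) := by
    intro l
    have h1 := hε0' l ε hεpos (hl0 l) (A (lp.single 2 (l, (1 : Γ)) 1)) (hA1 _)
    refine le_trans ?_ h1
    refine mul_le_mul_of_nonneg_left ?_ hεpos.le
    exact (Complex.re_le_norm _).trans (lp.norm_apply_le_norm (by norm_num) _ _)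
  have h4 : ∑ l : Fin n, ε * ((A (lp.single 2 (l, (1 : Γ)) 1)) (l, 1)).re ≤
      n * (1 / (2 * (n + 1))) := by
    refine (Finset.sum_le_sum fun l _ => hAle l).trans ?_
    rw [Finset.sum_const, Finset.card_univ, Fintype.card_fin, nsmul_eq_mul]
  have h5 : 0 ≤ ∑ i : Fin k, ε * ((B (lp.single 2 (i, (1 : Γ)) 1)) (i, 1)).re :=
    Finset.sum_nonneg fun i _ => mul_nonneg hεpos.le (hBpos i)
  have h6 : (n : ℝ) * (1 / (2 * (n + 1))) < 1 := by
    rw [mul_one_div, div_lt_one (by positivity)]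
    linarith [(Nat.cast_nonneg n : (0 : ℝ) ≤ n)]
  have h7 : (k : ℝ) + 1 ≤ n := by exact_mod_cast hkn
  linarith

end Pool.Agent.H14R3.Aug
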